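import Pool.Agent.Helper22_DEN.Stmt

/-! Squad DEN, modules FLD1, FLD2, FLD3 (helper99). -/

set_option autoImplicit false

namespace Pool.Agent.DEN.H99

open Pool.Agent.DEN

variable {K : Type} [Field K]

theorem mem_Bd {m : ℤ} {a : FF K} : a ∈ Bd K m ↔ ∀ j : ℤ, j < -m → HahnSeries.coeff a j = 0 :=
  Iff.rfl

theorem mem_Bd' {m : ℤ} {a : FF K} : a ∈ Bd K m ↔ ((-m : ℤ) : WithTop ℤ) ≤ a.orderTop := by
  rw [mem_Bd, HahnSeries.le_orderTop_iff_forall]
  constructor
  · intro h j hj
    exact h j (WithTop.coe_lt_coe.1 hj)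
  · intro h j hj
    exact h j (WithTop.coe_lt_coe.2 hj)

theorem bd_mul {m n : ℤ} {a b : FF K} (ha : a ∈ Bd K m) (hb : b ∈ Bd K n) :
    a * b ∈ Bd K (m + n) := by
  rw [mem_Bd'] at *
  refine le_trans ?_ HahnSeries.orderTop_add_le_mul
  rw [neg_add]
  push_cast
  exact add_le_add ha hb

theorem tt_pow (n : ℕ) : tt K ^ n = HahnSeries.single (-(n : ℤ)) 1 := by
  unfold tt
  rw [HahnSeries.single_pow, one_pow]
  congr 1
  simp

theorem tt_ne : tt K ≠ 0 := HahnSeries.single_ne_zero one_ne_zero

theorem tt_zpow (m : ℤ) : tt K ^ m = HahnSeries.single (-m) 1 := by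
  have hinv : (tt K)⁻¹ = HahnSeries.single 1 1 := by
    rw [inv_eq_iff_eq_inv, eq_comm, inv_eq_iff_eq_inv, ← mul_right_inj' (tt_ne (K := K)), mul_inv_cancel₀ tt_ne]
    unfold tt
    rw [HahnSeries.single_mul_single]
    simp
  cases m with
  | ofNat n =>
    rw [Int.ofNat_eq_natCast, zpow_natCast, tt_pow]
  | negSucc n =>
    rw [zpow_negSucc, ← inv_pow, hinv, HahnSeries.single_pow, one_pow]
    congr 1
    simp

theorem tt_mem (m : ℤ) : tt K ^ m ∈ Bd K m := by
  intro j hj
  rw [tt_zpow]
  exact HahnSeries.coeff_single_of_ne (by omega)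

theorem fld1 : Fld1Stmt := by
  intro K _
  have h1 : ∀ (m : ℤ) (a : FF K), tt K ^ m * a ∈ Bd K m ↔ a ∈ Bd K 0 := by
    intro m a
    constructor
    · intro h
      have := bd_mul (tt_mem (K := K) (-m)) h
      rwa [neg_add_cancel, ← mul_assoc, ← zpow_add₀ tt_ne, neg_add_cancel, zpow_zero, one_mul]
        at this
    · intro h
      have := bd_mul (tt_mem (K := K) m) h
      rwa [add_zero] at this
  refine ⟨?_, ?_, ?_, ?_, ?_, ?_, tt_ne, h1, ?_⟩
  · intro m j _
    simp
  · intro m a b ha hb j hj
    rw [HahnSeries.coeff_add, ha j hj, hb j hj, add_zero]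
  · intro m a ha j hj
    rw [HahnSeries.coeff_neg, ha j hj, neg_zero]
  · intro m n a b ha hb
    exact bd_mul ha hb
  · intro m n a hmn ha j hj
    exact ha j (by omega)
  · intro n j hj
    have : ((n : ℤ) : FF K) = HahnSeries.C ((n : ℤ) : K) := (map_intCast HahnSeries.C n).symm
    rw [this, HahnSeries.C_apply]
    exact HahnSeries.coeff_single_of_ne (by omega)
  · intro a ha
    set m := -a.order with hm
    refine ⟨m, tt K ^ (-m) * a, ?_, ?_, ?_, ?_, ?_⟩
    · rw [← mul_assoc, ← zpow_add₀ tt_ne, add_neg_cancel, zpow_zero, one_mul]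
    · have h2 : a ∈ Bd K m := by
        intro j hj
        exact HahnSeries.coeff_eq_zero_of_lt_order (by omega)
      have := bd_mul (tt_mem (K := K) (-m)) h2
      rwa [neg_add_cancel] at this
    · have hai : a⁻¹ ≠ 0 := inv_ne_zero ha
      have h3 : a.order + a⁻¹.order = 0 := by
        rw [← HahnSeries.order_mul ha hai, mul_inv_cancel₀ ha]
        exact HahnSeries.order_one
      have h2 : a⁻¹ ∈ Bd K (-m) := by
        intro j hj
        exact HahnSeries.coeff_eq_zero_of_lt_order (by omega)
      have := bd_mul (tt_mem (K := K) m) h2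
      rw [add_neg_cancel] at this
      rwa [mul_inv, ← zpow_neg, neg_neg]
    · exact mul_ne_zero (zpow_ne_zero _ tt_ne) ha
    · intro h
      have := h a.order (by omega)
      rw [HahnSeries.coeff_order_eq_zero] at this
      exact ha this

/-- coefficients of a polynomial -/
theorem polyL_coeff (p : Polynomial K) (j : ℤ) :
    (polyL K p).coeff j = if j ≤ 0 then p.coeff (-j).toNat else 0 := by
  induction p using Polynomial.induction_on' with
  | add p q hp hq =>
    rw [map_add, HahnSeries.coeff_add, hp, hq]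
    split_ifs
    · rw [Polynomial.coeff_add]
    · rw [add_zero]
  | monomial n c =>
    have : polyL K (Polynomial.monomial n c) = HahnSeries.single (-(n : ℤ)) c := by
      unfold polyL
      rw [Polynomial.coe_eval₂RingHom, Polynomial.eval₂_monomial, tt_pow, HahnSeries.C_apply,
        HahnSeries.single_mul_single, zero_add, mul_one]
    rw [this, HahnSeries.coeff_single, Polynomial.coeff_monomial]
    by_cases h : j = -(n : ℤ)
    · subst h
      rw [if_pos rfl, if_pos (by omega), if_pos (by omega)]
    · rw [if_neg h]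
      split_ifs with h1 h2
      · exfalso; omega
      · rfl
      · rfl

theorem ringA_one : (ringA K 1 : Set (FF K)) = Set.range (polyL K) := by
  have : ringA K 1 = (polyL K).range := by
    apply le_antisymm
    · unfold ringA
      rw [Subring.closure_le]
      rintro x (⟨p, rfl⟩ | hx)
      · exact ⟨p, rfl⟩
      · rw [Set.mem_singleton_iff] at hx
        rw [hx, map_one, inv_one]
        exact ⟨1, map_one _⟩
    · rintro x ⟨p, rfl⟩
      exact Subring.subset_closure (Or.inl ⟨p, rfl⟩)
  rw [this]
  rfl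

theorem fld2 : Fld2Stmt := by
  intro K _
  have hdeg : ∀ p : Polynomial K, polyL K p ∈ Bd K p.natDegree := by
    intro p j hj
    rw [polyL_coeff]
    split_ifs
    · exact Polynomial.coeff_eq_zero_of_natDegree_lt (by omega)
    · rfl
  refine ⟨?_, hdeg, ?_, ?_, ringA_one⟩
  · intro p q h
    ext n
    have h1 := congrArg (fun a => HahnSeries.coeff a (-(n : ℤ))) h
    simp only [polyL_coeff] at h1
    rw [if_pos (by omega), if_pos (by omega), neg_neg, Int.toNat_natCast] at h1
    exact h1
  · intro p m hp h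
    by_contra hlt
    push Not at hlt
    have h1 := h (-(p.natDegree : ℤ)) (by omega)
    rw [polyL_coeff, if_pos (by omega), neg_neg, Int.toNat_natCast] at h1
    exact hp (Polynomial.leadingCoeff_eq_zero.1 h1)
  · intro N hN a
    have hN' : polyL K N ≠ 0 := by
      intro h0
      have h1 := polyL_coeff N (-(N.natDegree : ℤ))
      rw [h0, if_pos (by omega), neg_neg, Int.toNat_natCast] at h1
      exact hN (Polynomial.leadingCoeff_eq_zero.1 (by simpa using h1.symm))
    set c := (polyL K N)⁻¹ * a with hc
    set M := (-c.order).toNat with hM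
    set b : Polynomial K := ∑ n ∈ Finset.range (M + 1), Polynomial.monomial n (c.coeff (-(n : ℤ)))
      with hb
    have hbc : ∀ n : ℕ, b.coeff n = c.coeff (-(n : ℤ)) := by
      intro n
      rw [hb, Polynomial.finsetSum_coeff]
      simp only [Polynomial.coeff_monomial]
      rw [Finset.sum_ite_eq' (Finset.range (M + 1)) n]
      split_ifs with h
      · rfl
      · rw [Finset.mem_range] at h
        exact (HahnSeries.coeff_eq_zero_of_lt_order (by omega)).symm
    refine ⟨b, ?_⟩
    have h1 : c - polyL K b ∈ Bd K (-1) := by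
      intro j hj
      rw [HahnSeries.coeff_sub, polyL_coeff, if_pos (by omega), hbc]
      have : -(((-j).toNat : ℕ) : ℤ) = j := by omega
      rw [this, sub_self]
    have h2 := bd_mul (hdeg N) h1
    have h3 : polyL K N * (c - polyL K b) = a - polyL K N * polyL K b := by
      rw [mul_sub, hc, ← mul_assoc, mul_inv_cancel₀ hN', one_mul]
    rw [h3] at h2
    exact h2

theorem fld3 : Fld3Stmt := by
  intro K _ P N hP
  have hinj : Function.Injective (polyL K) := (fld2 K).1
  have hP' : polyL K P ≠ 0 := by
    intro h0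
    exact hP (hinj (by rw [h0, map_zero]))
  have h1 : ∀ a : FF K, a ∈ ringA K P ↔ ∃ (n : ℕ) (p : Polynomial K),
      polyL K P ^ n * a = polyL K p := by
    intro a
    constructor
    · intro ha
      unfold ringA at ha
      induction ha using Subring.closure_induction with
      | mem x hx =>
        rcases hx with ⟨p, rfl⟩ | hx
        · exact ⟨0, p, by rw [pow_zero, one_mul]⟩
        · rw [Set.mem_singleton_iff] at hx
          exact ⟨1, 1, by rw [hx, pow_one, mul_inv_cancel₀ hP', map_one]⟩
      | zero => exact ⟨0, 0, by simp⟩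
      | one => exact ⟨0, 1, by simp⟩
      | add x y _ _ hx hy =>
        obtain ⟨n, p, hp⟩ := hx
        obtain ⟨m, q, hq⟩ := hy
        refine ⟨n + m, P ^ m * p + P ^ n * q, ?_⟩
        rw [map_add, map_mul, map_mul, map_pow, map_pow, ← hp, ← hq]
        ring
      | neg x _ hx =>
        obtain ⟨n, p, hp⟩ := hx
        exact ⟨n, -p, by rw [map_neg, ← hp]; ring⟩
      | mul x y _ _ hx hy =>
        obtain ⟨n, p, hp⟩ := hx
        obtain ⟨m, q, hq⟩ := hy
        refine ⟨n + m, p * q, ?_⟩
        rw [map_mul, ← hp, ← hq]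
        ring
    · rintro ⟨n, p, hp⟩
      have : a = (polyL K P)⁻¹ ^ n * polyL K p := by
        rw [← hp, ← mul_assoc, ← mul_pow, inv_mul_cancel₀ hP', one_pow, one_mul]
      rw [this]
      exact (ringA K P).mul_mem ((ringA K P).pow_mem (Subring.subset_closure (Or.inr rfl)) n)
        (Subring.subset_closure (Or.inl ⟨p, rfl⟩))
  have hsub : ∀ p : Polynomial K, polyL K p ∈ ringA K 1 := fun p =>
    Subring.subset_closure (Or.inl ⟨p, rfl⟩)
  refine ⟨h1, ?_, ?_⟩
  · intro hcop a ha hNa
    obtain ⟨n, p, hp⟩ := (h1 a).1 ha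
    have hNa' : polyL K N * a ∈ (ringA K 1 : Set (FF K)) := hNa
    rw [ringA_one] at hNa'
    obtain ⟨q, hq⟩ := hNa'
    obtain ⟨u, v, huv⟩ := IsCoprime.pow_left (m := n) hcop
    have : a = polyL K (u * p + v * q) := by
      rw [map_add, map_mul, map_mul, ← hp, hq]
      have := congrArg (polyL K) huv
      rw [map_add, map_mul, map_mul, map_pow, map_one] at this
      linear_combination -a * this
    rw [this]
    exact hsub _
  · intro hcop a ha
    obtain ⟨n, p, hp⟩ := (h1 a).1 ha
    obtain ⟨u, v, huv⟩ := IsCoprime.pow_left (m := n) hcop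
    refine ⟨polyL K (u * p), hsub _, polyL K v * a, (ringA K P).mul_mem
      (Subring.subset_closure (Or.inl ⟨v, rfl⟩)) ha, ?_⟩
    rw [map_mul, ← hp]
    have := congrArg (polyL K) huv
    rw [map_add, map_mul, map_mul, map_pow, map_one] at this
    linear_combination -a * this

end Pool.Agent.DEN.H99
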